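import Mathlib
import Pool.Agent.LibDowk70.Space
import Pool.Agent.LibSier69.Guess
import Pool.Agent.LibSier69.Maps

/-!
# A Dowker space of cardinality `ℵ₁` from a Sierpiński set
-/

namespace Pool.Agent.Results.MP_1bc7d4_lc.Sierpinski

open Set MeasureTheory Pool.Agent.LibDowk70

/-- Sierpiński sets: uncountable sets of reals whose intersection with every Lebesgue null set
is countable. -/
def IsSierpinski (S : Set ℝ) : Prop :=
  ¬ S.Countable ∧ ∀ N : Set ℝ, volume N = 0 → (S ∩ N).Countable

/-- If there is a Sierpiński set, then there is a Dowker space of cardinality `ℵ₁`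
in which every point has a countable clopen neighbourhood. -/
theorem result (h : ∃ S : Set ℝ, IsSierpinski S) :
    ∃ (X : Type) (τ : TopologicalSpace X), Cardinal.mk X = Cardinal.aleph 1 ∧
      @IsDowker X τ ∧ ∀ x : X, ∃ u : Set X, x ∈ u ∧ u.Countable ∧ @IsClopen X τ u := by
  obtain ⟨S, hS, hS2⟩ := h
  let W : Type := (Cardinal.aleph 1).ord.ToType
  have hmk : Cardinal.mk W = Cardinal.aleph 1 := by simp [W]
  have hu : ¬ (univ : Set W).Countable := by
    rw [countable_univ_iff, ← Cardinal.mk_le_aleph0_iff, hmk, not_le]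
    exact Cardinal.aleph0_lt_aleph_one
  have hc : ∀ a : W, (Iic a).Countable := by
    intro a
    have h1 : Cardinal.mk (Iio a) < Cardinal.aleph 1 := by
      have := Cardinal.mk_Iio_toType_ord_lt a
      exact this
    have h2 : (Iio a).Countable := by
      rw [← Set.countable_coe_iff, ← Cardinal.mk_le_aleph0_iff]
      exact Order.lt_succ_iff.1 (h1.trans_eq Cardinal.succ_aleph0.symm)
    rw [← Iio_insert]
    exact h2.insert a
  obtain ⟨x, z, hx, hxn, hzn⟩ := Pool.Agent.LibSier69.exists_maps hS hS2 hmk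
  obtain ⟨τ, hτ, hp⟩ := exists_dowker hc hu (Pool.Agent.LibSier69.guess hc hu x z hx hxn hzn)
  refine ⟨W × ℕ, τ, ?_, hτ, hp⟩
  rw [Cardinal.mk_prod, Cardinal.lift_id, Cardinal.lift_id, hmk, Cardinal.mk_nat]
  exact Cardinal.mul_eq_left (Cardinal.aleph0_le_aleph 1) (Cardinal.aleph0_le_aleph 1)
    Cardinal.aleph0_ne_zero

end Pool.Agent.Results.MP_1bc7d4_lc.Sierpinski
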